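import Mathlib

/-! Tags for the three kinds of numbers. -/

namespace Pool.Agent.L0h78.LDT

open Finset

/-- the pushforward of the coefficients -/
def push (c : Fin 3 → ℤ) (f : Fin 3 → Fin 3) (j : Fin 3) : ℤ := ∑ i, if f i = j then c i else 0

lemma push_sum (c x : Fin 3 → ℤ) (f : Fin 3 → Fin 3) :
    ∑ i, c i * x (f i) = ∑ j, push c f j * x j := by
  unfold push
  simp only [Finset.sum_mul, ite_mul, zero_mul]
  rw [Finset.sum_comm]
  apply Finset.sum_congr rfl
  intro i _
  rw [Finset.sum_ite_eq]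
  simp

lemma push_total (c : Fin 3 → ℤ) (f : Fin 3 → Fin 3) : ∑ j, push c f j = ∑ i, c i := by
  have := push_sum c (fun _ => 1) f
  simpa using this.symm

lemma push_perm {c : Fin 3 → ℤ} (hc : ∀ i, c i ≠ 0) {f : Fin 3 → Fin 3} (h : push c f = c) :
    Function.Bijective f ∧ ∀ i, c (f i) = c i := by
  have hs : Function.Surjective f := by
    intro j
    by_contra hj
    push Not at hj
    apply hc j
    rw [← h]
    unfold push
    apply Finset.sum_eq_zero
    intro i _
    rw [if_neg (hj i)]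
  have hb : Function.Bijective f := ⟨Finite.injective_iff_surjective.mpr hs, hs⟩
  refine ⟨hb, fun i => ?_⟩
  conv_lhs => rw [← h]
  unfold push
  rw [Finset.sum_eq_single i]
  · rw [if_pos rfl]
  · intro i' _ hi'
    rw [if_neg]
    intro h'
    exact hi' (hb.1 h')
  · simp

lemma avoid {J : Type} [Finite J] (α β γ : J → ℤ) (h : ∀ j, α j ≠ 0 ∨ β j ≠ 0 ∨ γ j ≠ 0) :
    ∃ N : ℤ, ∀ j, α j + N * β j + N ^ 2 * γ j ≠ 0 := by
  classical
  let p : J → Polynomial ℤ := fun j =>
    Polynomial.C (α j) + Polynomial.C (β j) * Polynomial.X + Polynomial.C (γ j) * Polynomial.X ^ 2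
  have hp : ∀ j, p j ≠ 0 := by
    intro j h0
    have c0 : (p j).coeff 0 = α j := by
      simp only [p, Polynomial.coeff_add, Polynomial.coeff_C_mul, Polynomial.coeff_X_pow,
        Polynomial.coeff_X, Polynomial.coeff_C]
      norm_num
    have c1 : (p j).coeff 1 = β j := by
      simp only [p, Polynomial.coeff_add, Polynomial.coeff_C_mul, Polynomial.coeff_X_pow,
        Polynomial.coeff_X, Polynomial.coeff_C]
      norm_num
    have c2 : (p j).coeff 2 = γ j := by
      simp only [p, Polynomial.coeff_add, Polynomial.coeff_C_mul, Polynomial.coeff_X_pow,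
        Polynomial.coeff_X, Polynomial.coeff_C]
      norm_num
    rw [h0, Polynomial.coeff_zero] at c0 c1 c2
    rcases h j with h1 | h1 | h1
    · exact h1 c0.symm
    · exact h1 c1.symm
    · exact h1 c2.symm
  have hfin : (⋃ j, {N : ℤ | (p j).IsRoot N}).Finite := by
    apply Set.finite_iUnion
    intro j
    exact Polynomial.finite_setOfPred_isRoot (hp j)
  obtain ⟨N, hN⟩ := hfin.exists_notMem
  refine ⟨N, fun j hj => hN ?_⟩
  rw [Set.mem_iUnion]
  refine ⟨j, ?_⟩
  show (p j).eval N = 0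
  simp only [p, Polynomial.eval_add, Polynomial.eval_mul, Polynomial.eval_C, Polynomial.eval_X,
    Polynomial.eval_pow]
  linear_combination hj

/-- The tags. -/
theorem exists_tags (c : Fin 3 → ℤ) (d : ℤ) (hc : ∀ i, c i ≠ 0)
    (hsol : ∃ x : Fin 3 → ℤ, ∑ i, c i * x i = d) (hnd : d ≠ 0 ∨ ∑ i, c i ≠ 0) :
    ∃ t : Fin 3 → ℤ, (∀ i j, i ≠ j → t i ≠ t j) ∧ ∑ i, c i * t i = d ∧
      ∀ f : Fin 3 → Fin 3, ∑ i, c i * t (f i) = d → push c f = c := by
  classical
  obtain ⟨x, hx⟩ := hsol
  let u : Fin 3 → ℤ := ![c 1, -c 0, 0]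
  let v : Fin 3 → ℤ := ![0, c 2, -c 1]
  have hu : ∑ i, c i * u i = 0 := by
    simp only [Fin.sum_univ_three, u]
    simp
    ring
  have hv : ∑ i, c i * v i = 0 := by
    simp only [Fin.sum_univ_three, v]
    simp
    ring
  -- the conditions
  let J : Type := {q : (Fin 3 → ℤ) × ℤ // (∃ f : Fin 3 → Fin 3, push c f ≠ c ∧ q = (push c f, d)) ∨
    ∃ i j : Fin 3, i ≠ j ∧ q = (Pi.single i 1 - Pi.single j 1, 0)}
  have : Finite J := by
    apply Set.Finite.to_subtype
    have h1 : {q : (Fin 3 → ℤ) × ℤ | (∃ f : Fin 3 → Fin 3, push c f ≠ c ∧ q = (push c f, d)) ∨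
      ∃ i j : Fin 3, i ≠ j ∧ q = (Pi.single i 1 - Pi.single j 1, 0)} ⊆
        Set.range (fun f : Fin 3 → Fin 3 => (push c f, d)) ∪
        Set.range (fun p : Fin 3 × Fin 3 =>
          ((Pi.single p.1 1 - Pi.single p.2 1 : Fin 3 → ℤ), (0 : ℤ))) := by
      rintro q (⟨f, -, rfl⟩ | ⟨i, j, -, rfl⟩)
      · exact Or.inl ⟨f, rfl⟩
      · exact Or.inr ⟨(i, j), rfl⟩
    exact Set.Finite.subset ((Set.finite_range _).union (Set.finite_range _)) h1
  have key : ∀ q : J, (∑ i, q.1.1 i * x i - q.1.2) ≠ 0 ∨ ∑ i, q.1.1 i * u i ≠ 0 ∨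
      ∑ i, q.1.1 i * v i ≠ 0 := by
    rintro ⟨⟨e, d'⟩, hq⟩
    by_contra hcon
    push Not at hcon
    obtain ⟨h1, h2, h3⟩ := hcon
    simp only [Fin.sum_univ_three, u, v] at h1 h2 h3
    simp at h2 h3
    -- `e` is proportional to `c`
    have p1 : e 0 * c 1 = e 1 * c 0 := by linarith
    have p2 : e 1 * c 2 = e 2 * c 1 := by linarith
    have p3 : e 0 * c 2 = e 2 * c 0 := by
      have h := hc 1
      apply mul_right_cancel₀ h
      calc e 0 * c 2 * c 1 = (e 0 * c 1) * c 2 := by ring
        _ = (e 1 * c 0) * c 2 := by rw [p1]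
        _ = (e 1 * c 2) * c 0 := by ring
        _ = (e 2 * c 1) * c 0 := by rw [p2]
        _ = e 2 * c 0 * c 1 := by ring
    have hx' : c 0 * x 0 + c 1 * x 1 + c 2 * x 2 = d := by
      rw [← hx, Fin.sum_univ_three]
    have p4 : ∀ i, e i * d = d' * c i := by
      have h1' : d' = e 0 * x 0 + e 1 * x 1 + e 2 * x 2 := by linarith
      intro i
      rw [h1', ← hx']
      fin_cases i
      · show e 0 * _ = _ * c 0
        linear_combination (-x 1) * p1 * (-1) - x 2 * p3 * (-1)
      · show e 1 * _ = _ * c 1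
        linear_combination (-x 0) * p1 - x 2 * p2 * (-1)
      · show e 2 * _ = _ * c 2
        linear_combination (-x 0) * p3 - x 1 * p2
    have p5 : ∀ i, e i * ∑ j, c j = (∑ j, e j) * c i := by
      intro i
      simp only [Fin.sum_univ_three]
      fin_cases i
      · show e 0 * _ = _ * c 0
        linear_combination p1 + p3
      · show e 1 * _ = _ * c 1
        linear_combination -p1 + p2
      · show e 2 * _ = _ * c 2
        linear_combination -p3 - p2
    rcases hq with ⟨f, hf, he⟩ | ⟨i, j, hij, he⟩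
    · have he1 : e = push c f := congrArg Prod.fst he
      have he2 : d' = d := congrArg Prod.snd he
      apply hf
      funext i
      rw [← he1]
      rcases hnd with hd | hs
      · have := p4 i
        rw [he2, mul_comm d] at this
        exact mul_right_cancel₀ hd this
      · have := p5 i
        rw [he1, push_total, mul_comm _ (c i)] at this
        rw [he1]
        exact mul_right_cancel₀ hs this
    · have he1 : e = Pi.single i 1 - Pi.single j 1 := congrArg Prod.fst he
      have he2 : d' = 0 := congrArg Prod.snd he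
      have hei : e i = 1 := by rw [he1]; simp [hij]
      obtain ⟨l, hli, hlj⟩ : ∃ l : Fin 3, l ≠ i ∧ l ≠ j := by
        have h3 : ∀ i j : Fin 3, ∃ l : Fin 3, l ≠ i ∧ l ≠ j := by decide
        exact h3 i j
      have hel : e l = 0 := by rw [he1]; simp [hli, hlj]
      have q1 : e i * c l = e l * c i := by
        fin_cases i <;> fin_cases l <;> simp_all
      rw [hei, hel, one_mul, zero_mul] at q1
      exact hc l q1
  obtain ⟨N, hN⟩ := avoid (fun q : J => ∑ i, q.1.1 i * x i - q.1.2)
    (fun q : J => ∑ i, q.1.1 i * u i) (fun q : J => ∑ i, q.1.1 i * v i) key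
  let t : Fin 3 → ℤ := fun i => x i + N * u i + N ^ 2 * v i
  have ht : ∀ e : Fin 3 → ℤ, ∑ i, e i * t i =
      ∑ i, e i * x i + N * ∑ i, e i * u i + N ^ 2 * ∑ i, e i * v i := by
    intro e
    simp only [Fin.sum_univ_three, t]
    ring
  refine ⟨t, ?_, ?_, ?_⟩
  · intro i j hij hE
    apply hN ⟨(Pi.single i 1 - Pi.single j 1, 0), Or.inr ⟨i, j, hij, rfl⟩⟩
    have h1 := ht (Pi.single i 1 - Pi.single j 1)
    have h2 : ∑ l, (Pi.single i 1 - Pi.single j 1 : Fin 3 → ℤ) l * t l = t i - t j := by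
      simp [sub_mul, Finset.sum_sub_distrib, Pi.single_apply]
    rw [h2, hE, sub_self] at h1
    simp only
    linarith
  · rw [ht, hu, hv, hx]
    ring
  · intro f hf
    by_contra hne
    apply hN ⟨(push c f, d), Or.inl ⟨f, hne, rfl⟩⟩
    rw [push_sum, ht] at hf
    simp only
    linarith

end Pool.Agent.L0h78.LDT
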