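import Pool.Agent.H560R2.Sum6
import Pool.Agent.L0h78.LDT.Tags

/-! The blocks as sets of integers for a general linear equation. -/

set_option linter.unusedSectionVars false
set_option linter.unusedVariables false

namespace Pool.Agent.L0h78.LDT

open Finset Pool.Agent.H560R2

/-- there are three pairwise different elements with `c 0 * x 0 + c 1 * x 1 + c 2 * x 2 = d` -/
def HasSol (c : Fin 3 → ℤ) (d : ℤ) (S : Finset ℤ) : Prop :=
  ∃ x : Fin 3 → ℤ, (∀ i j, i ≠ j → x i ≠ x j) ∧ (∀ i, x i ∈ S) ∧ ∑ i, c i * x i = d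

section gen

variable {V : Type} [Fintype V] {M : ℕ} (ι : Fin M × V → ℤ)

open Classical in
/-- the positions -/
noncomputable def locI : ℤ → Option (Fin M × V) := fun z =>
  if h : ∃ q : Fin M × V, ι q = z then some (Classical.choose h) else none

variable {ι}

lemma locI_num (hι : Function.Injective ι) (q : Fin M × V) : locI ι (ι q) = some q := by
  have h : ∃ q' : Fin M × V, ι q' = ι q := ⟨q, rfl⟩
  unfold locI
  rw [dif_pos h]
  congr 1
  apply hι
  exact Classical.choose_spec h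

variable (ι)

open Classical in
/-- the set of integers -/
noncomputable def setI (y : Fin M → Set V) : Finset ℤ :=
  (univ.filter (fun q : Fin M × V => q.2 ∈ y q.1)).image ι

lemma mem_setI (y : Fin M → Set V) (z : ℤ) :
    z ∈ setI ι y ↔ ∃ q : Fin M × V, q.2 ∈ y q.1 ∧ ι q = z := by
  classical
  unfold setI
  rw [Finset.mem_image]
  constructor
  · rintro ⟨q, hq, h⟩
    exact ⟨q, (Finset.mem_filter.mp hq).2, h⟩
  · rintro ⟨q, hq, h⟩
    exact ⟨q, Finset.mem_filter.mpr ⟨mem_univ _, hq⟩, h⟩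

lemma setI_card_le (y : Fin M → Set V) : (setI ι y).card ≤ Fintype.card (Fin M × V) := by
  classical
  unfold setI
  refine Finset.card_image_le.trans ((Finset.card_filter_le _ _).trans ?_)
  rw [Finset.card_univ]

variable {ι}

lemma setI_bits (hι : Function.Injective ι) (y : Fin M → Set V) (z : ℤ) :
    z ∈ setI ι y ↔ Es (locI ι) y z = true := by
  rw [mem_setI]
  constructor
  · rintro ⟨q, hq, rfl⟩
    unfold Es
    rw [locI_num hι]
    simpa using hq
  · intro h
    unfold Es at h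
    rcases hl : locI ι z with _ | q
    · rw [hl] at h
      simp at h
    · rw [hl] at h
      simp only [decide_eq_true_eq] at h
      refine ⟨q, h, ?_⟩
      unfold locI at hl
      split_ifs at hl with h1
      rw [← Option.some.inj hl]
      exact Classical.choose_spec h1

end gen

section emb

variable {m k M : ℕ}

/-- the kind -/
def typ : Vw m k → Fin 3
  | Sum.inl _ => 0
  | Sum.inr (Sum.inl _) => 1
  | Sum.inr (Sum.inr _) => 2

/-- the factor of the kind -/
def cof (c : Fin 3 → ℤ) : Fin 3 → ℤ := ![c 1 * c 2, c 0 * c 2, -(c 0 * c 1)]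

/-- the sign of the kind -/
def sg : Fin 3 → ℤ := ![1, 1, -1]

lemma mul_cof (c : Fin 3 → ℤ) (j : Fin 3) : c j * cof c j = c 0 * c 1 * c 2 * sg j := by
  fin_cases j
  · show c 0 * (c 1 * c 2) = c 0 * c 1 * c 2 * 1
    ring
  · show c 1 * (c 0 * c 2) = c 0 * c 1 * c 2 * 1
    ring
  · show c 2 * -(c 0 * c 1) = c 0 * c 1 * c 2 * -1
    ring

/-- the number of an element -/
def emb (c t : Fin 3 → ℤ) (K : ℤ) (q : Fin M × Vw m k) : ℤ :=
  K * (cof c (typ q.2) * (num q : ℤ)) + t (typ q.2)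

/-- `K` is large -/
def Large (c t : Fin 3 → ℤ) (d K : ℤ) : Prop :=
  (∀ f : Fin 3 → Fin 3, |d - ∑ i, c i * t (f i)| < K) ∧ ∀ i j, |t i - t j| < K

lemma exists_large (c t : Fin 3 → ℤ) (d : ℤ) : ∃ K : ℤ, Large c t d K := by
  refine ⟨∑ f : Fin 3 → Fin 3, |d - ∑ i, c i * t (f i)| + ∑ p : Fin 3 × Fin 3, |t p.1 - t p.2| + 1,
    ?_, ?_⟩
  · intro f
    have h1 : |d - ∑ i, c i * t (f i)| ≤ ∑ f : Fin 3 → Fin 3, |d - ∑ i, c i * t (f i)| :=
      Finset.single_le_sum (f := fun f : Fin 3 → Fin 3 => |d - ∑ i, c i * t (f i)|)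
        (fun _ _ => abs_nonneg _) (mem_univ f)
    have h2 : 0 ≤ ∑ p : Fin 3 × Fin 3, |t p.1 - t p.2| := Finset.sum_nonneg fun _ _ => abs_nonneg _
    linarith
  · intro i j
    have h1 : 0 ≤ ∑ f : Fin 3 → Fin 3, |d - ∑ i, c i * t (f i)| :=
      Finset.sum_nonneg fun _ _ => abs_nonneg _
    have h2 : |t i - t j| ≤ ∑ p : Fin 3 × Fin 3, |t p.1 - t p.2| :=
      Finset.single_le_sum (f := fun p : Fin 3 × Fin 3 => |t p.1 - t p.2|)
        (fun _ _ => abs_nonneg _) (mem_univ (i, j))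
    linarith

lemma zero_of_mul {K A B : ℤ} (h : K * A = B) (hB : |B| < K) : A = 0 ∧ B = 0 := by
  have hK : 0 < K := lt_of_le_of_lt (abs_nonneg _) hB
  have hA : A = 0 := by
    by_contra hA
    have h1 : 1 ≤ |A| := Int.one_le_abs hA
    have h2 : |B| = K * |A| := by rw [← h, abs_mul, abs_of_pos hK]
    nlinarith
  exact ⟨hA, by rw [← h, hA, mul_zero]⟩

variable {c t : Fin 3 → ℤ} {d K : ℤ}

lemma cof_ne (hc : ∀ i, c i ≠ 0) (j : Fin 3) : cof c j ≠ 0 := by
  fin_cases j
  · exact mul_ne_zero (hc 1) (hc 2)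
  · exact mul_ne_zero (hc 0) (hc 2)
  · exact neg_ne_zero.mpr (mul_ne_zero (hc 0) (hc 1))

lemma emb_inj (hc : ∀ i, c i ≠ 0) (hK : Large c t d K) (ht : ∀ i j, i ≠ j → t i ≠ t j) :
    Function.Injective (emb c t K : Fin M × Vw m k → ℤ) := by
  intro q q' h
  unfold emb at h
  have h1 : K * (cof c (typ q.2) * (num q : ℤ) - cof c (typ q'.2) * (num q' : ℤ)) =
      t (typ q'.2) - t (typ q.2) := by linarith
  obtain ⟨h2, h3⟩ := zero_of_mul h1 (hK.2 _ _)
  have h4 : typ q'.2 = typ q.2 := by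
    by_contra hne
    exact ht _ _ hne (by linarith)
  rw [h4, ← mul_sub] at h2
  rcases mul_eq_zero.mp h2 with h5 | h5
  · exact absurd h5 (cof_ne hc _)
  · apply num_inj
    have : (num q : ℤ) = num q' := by linarith
    exact_mod_cast this

lemma typ_eq0 {v : Vw m k} (h : typ v = 0) : ∃ a, v = Sum.inl a := by
  rcases v with a | b | c
  · exact ⟨a, rfl⟩
  · simp [typ] at h
  · simp [typ] at h

lemma typ_eq1 {v : Vw m k} (h : typ v = 1) : ∃ a, v = Sum.inr (Sum.inl a) := by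
  rcases v with a | b | c
  · simp [typ] at h
  · exact ⟨b, rfl⟩
  · simp [typ] at h

/-- The only solutions. -/
lemma emb_sol (hc : ∀ i, c i ≠ 0) (hK : Large c t d K)
    (hf : ∀ f : Fin 3 → Fin 3, ∑ i, c i * t (f i) = d → push c f = c)
    (q : Fin 3 → Fin M × Vw m k) (h : ∑ i, c i * emb c t K (q i) = d) :
    ∃ (i : Fin M) (a b : Fin k → Fin m), (∃ j, q j = (i, Sum.inl a)) ∧
      (∃ j, q j = (i, Sum.inr (Sum.inl b))) ∧ (∃ j, q j = (i, Sum.inr (Sum.inr (wadd a b)))) := by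
  let f : Fin 3 → Fin 3 := fun i => typ (q i).2
  have h1 : K * (∑ i, c i * (cof c (f i) * (num (q i) : ℤ))) = d - ∑ i, c i * t (f i) := by
    rw [← h, Finset.mul_sum, ← Finset.sum_sub_distrib]
    apply Finset.sum_congr rfl
    intro i _
    unfold emb
    ring
  obtain ⟨h2, h3⟩ := zero_of_mul h1 (hK.1 f)
  obtain ⟨hbij, hcf⟩ := push_perm hc (hf f (by linarith))
  have h4 : ∑ i, sg (f i) * (num (q i) : ℤ) = 0 := by
    have hP : c 0 * c 1 * c 2 ≠ 0 := mul_ne_zero (mul_ne_zero (hc 0) (hc 1)) (hc 2)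
    apply mul_left_cancel₀ hP
    rw [mul_zero, ← h2, Finset.mul_sum]
    apply Finset.sum_congr rfl
    intro i _
    rw [← mul_assoc, ← mul_cof, hcf i]
    ring
  obtain ⟨g, hg⟩ : ∃ g : Fin 3 → Fin 3, ∀ j, f (g j) = j :=
    ⟨fun j => Classical.choose (hbij.2 j), fun j => Classical.choose_spec (hbij.2 j)⟩
  have hgb : Function.Bijective g := by
    have : Function.Injective g := fun a b hab => by rw [← hg a, ← hg b, hab]
    exact ⟨this, Finite.injective_iff_surjective.mp this⟩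
  have h5 : ∑ j, sg j * (num (q (g j)) : ℤ) = 0 := by
    rw [← h4, ← hgb.sum_comp (fun i => sg (f i) * (num (q i) : ℤ))]
    apply Finset.sum_congr rfl
    intro j _
    rw [hg j]
  rw [Fin.sum_univ_three] at h5
  have h6 : num (q (g 0)) + num (q (g 1)) = num (q (g 2)) := by
    have : sg 0 = 1 ∧ sg 1 = 1 ∧ sg 2 = -1 := ⟨rfl, rfl, rfl⟩
    rw [this.1, this.2.1, this.2.2] at h5
    have h7 : (num (q (g 0)) : ℤ) + num (q (g 1)) = num (q (g 2)) := by linarith
    exact_mod_cast h7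
  obtain ⟨i, a, b, h7, h8 | h8⟩ := num_sum h6
  · exact ⟨i, a, b, ⟨_, h8.1⟩, ⟨_, h8.2⟩, ⟨_, h7⟩⟩
  · exact ⟨i, a, b, ⟨_, h8.1⟩, ⟨_, h8.2⟩, ⟨_, h7⟩⟩

lemma hasSol_iff (hc : ∀ i, c i ≠ 0) (hK : Large c t d K) (ht : ∀ i j, i ≠ j → t i ≠ t j)
    (htd : ∑ i, c i * t i = d)
    (hf : ∀ f : Fin 3 → Fin 3, ∑ i, c i * t (f i) = d → push c f = c)
    (y : Fin M → Set (Vw m k)) : HasSol c d (setI (emb c t K) y) ↔
    ∃ (i : Fin M) (a b : Fin k → Fin m), (Sum.inl a : Vw m k) ∈ y i ∧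
      (Sum.inr (Sum.inl b) : Vw m k) ∈ y i ∧ (Sum.inr (Sum.inr (wadd a b)) : Vw m k) ∈ y i := by
  constructor
  · rintro ⟨x, -, hxS, hx⟩
    have h1 : ∀ i, ∃ q : Fin M × Vw m k, q.2 ∈ y q.1 ∧ emb c t K q = x i :=
      fun i => (mem_setI _ y _).mp (hxS i)
    choose q hq hqx using h1
    have h2 : ∑ i, c i * emb c t K (q i) = d := by simp only [hqx, hx]
    obtain ⟨i, a, b, ⟨j0, h3⟩, ⟨j1, h4⟩, j2, h5⟩ := emb_sol hc hK hf q h2
    refine ⟨i, a, b, ?_, ?_, ?_⟩
    · have := hq j0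
      rw [h3] at this
      exact this
    · have := hq j1
      rw [h4] at this
      exact this
    · have := hq j2
      rw [h5] at this
      exact this
  · rintro ⟨i, a, b, ha, hb, hab⟩
    let q : Fin 3 → Fin M × Vw m k :=
      ![(i, Sum.inl a), (i, Sum.inr (Sum.inl b)), (i, Sum.inr (Sum.inr (wadd a b)))]
    have htq : ∀ j, typ (q j).2 = j := by
      intro j
      fin_cases j <;> rfl
    have hqy : ∀ j, (q j).2 ∈ y (q j).1 := by
      intro j
      fin_cases j
      · exact ha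
      · exact hb
      · exact hab
    refine ⟨fun j => emb c t K (q j), ?_, fun j => (mem_setI _ y _).mpr ⟨q j, hqy j, rfl⟩, ?_⟩
    · intro j j' hj h
      have h1 := emb_inj hc hK ht h
      apply hj
      rw [← htq j, ← htq j', h1]
    · have h1 : ∑ j, c j * emb c t K (q j) =
          K * (c 0 * c 1 * c 2 * ((num (q 0) : ℤ) + num (q 1) - num (q 2))) + ∑ j, c j * t j := by
        have h2 : ∀ j, c j * emb c t K (q j) =
            K * (c 0 * c 1 * c 2 * sg j * (num (q j) : ℤ)) + c j * t j := by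
          intro j
          unfold emb
          rw [htq j, ← mul_cof]
          ring
        rw [Finset.sum_congr rfl (fun j _ => h2 j), Finset.sum_add_distrib, ← Finset.mul_sum,
          Fin.sum_univ_three]
        have : sg 0 = 1 ∧ sg 1 = 1 ∧ sg 2 = -1 := ⟨rfl, rfl, rfl⟩
        rw [this.1, this.2.1, this.2.2]
        ring
      have h3 : num (q 0) + num (q 1) = num (q 2) := by
        show num (i, (Sum.inl a : Vw m k)) + num (i, (Sum.inr (Sum.inl b) : Vw m k)) =
          num (i, (Sum.inr (Sum.inr (wadd a b)) : Vw m k))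
        unfold num
        simp only [knd, off]
        rw [enc_wadd]
        ring
      have h4 : (num (q 0) : ℤ) + num (q 1) - num (q 2) = 0 := by
        have : (num (q 0) : ℤ) + num (q 1) = num (q 2) := by exact_mod_cast h3
        linarith
      rw [h1, h4, htd]
      ring

lemma setI_card (ι : Fin M × Vw m k → ℤ) (y : Fin M → Set (Vw m k)) :
    (setI ι y).card ≤ 3 * (M * (2 * m) ^ k) := by
  classical
  refine (setI_card_le ι y).trans ?_
  rw [Fintype.card_prod, Fintype.card_sum, Fintype.card_sum, Fintype.card_fun,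
    Fintype.card_fun, Fintype.card_fin, Fintype.card_fin, Fintype.card_fin, Fintype.card_fin]
  have h : m ^ k ≤ (2 * m) ^ k := Nat.pow_le_pow_left (by omega) k
  calc M * (m ^ k + (m ^ k + (2 * m) ^ k)) ≤ M * (3 * (2 * m) ^ k) :=
        Nat.mul_le_mul_left _ (by omega)
    _ = _ := by ring

/-- the bound for the numbers -/
lemma emb_le (c t : Fin 3 → ℤ) (K : ℤ) : ∃ B : ℕ, ∀ (m k M : ℕ) (q : Fin M × Vw m k),
    |emb c t K q| ≤ B * (9 * (hb m k M : ℤ)) + B := by
  refine ⟨(∑ j, |K * cof c j|).toNat + (∑ j, |t j|).toNat, fun m k M q => ?_⟩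
  have h1 : 0 ≤ ∑ j, |K * cof c j| := Finset.sum_nonneg fun _ _ => abs_nonneg _
  have h2 : 0 ≤ ∑ j, |t j| := Finset.sum_nonneg fun _ _ => abs_nonneg _
  have h3 : |K * cof c (typ q.2)| ≤ ∑ j, |K * cof c j| :=
    Finset.single_le_sum (f := fun j => |K * cof c j|) (fun _ _ => abs_nonneg _) (mem_univ _)
  have h4 : |t (typ q.2)| ≤ ∑ j, |t j| :=
    Finset.single_le_sum (f := fun j => |t j|) (fun _ _ => abs_nonneg _) (mem_univ _)
  have h5 : (num q : ℤ) ≤ 9 * (hb m k M : ℤ) := by exact_mod_cast num_le q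
  have h6 : (0 : ℤ) ≤ num q := Int.natCast_nonneg _
  push_cast
  rw [Int.toNat_of_nonneg h1, Int.toNat_of_nonneg h2]
  calc |emb c t K q| ≤ |K * (cof c (typ q.2) * (num q : ℤ))| + |t (typ q.2)| := abs_add_le _ _
    _ = |K * cof c (typ q.2)| * (num q : ℤ) + |t (typ q.2)| := by
        rw [← mul_assoc, abs_mul, abs_of_nonneg h6]
    _ ≤ (∑ j, |K * cof c j|) * (9 * (hb m k M : ℤ)) + ∑ j, |t j| :=
        add_le_add (mul_le_mul h3 h5 h6 h1) h4
    _ ≤ _ := by nlinarith [mul_nonneg h2 (h6.trans h5)]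

end emb

end Pool.Agent.L0h78.LDT
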