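import Pool.Agent.H560R2.Sum7
import Pool.Agent.L0h78.LDT.Emb

/-! The hard distributions of sets of integers for a general linear equation. -/

set_option linter.unusedSectionVars false
set_option linter.unusedVariables false

namespace Pool.Agent.L0h78.LDT

open Finset Pool.Agent.H560R2

section yn

variable {m k M : ℕ} {c t : Fin 3 → ℤ} {d K : ℤ}

lemma hasSol_yes (hc : ∀ i, c i ≠ 0) (hK : Large c t d K) (ht : ∀ i j, i ≠ j → t i ≠ t j)
    (htd : ∑ i, c i * t i = d)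
    (hf : ∀ f : Fin 3 → Fin 3, ∑ i, c i * t (f i) = d → push c f = c)
    {N' : Type} (sn : N' → Finset (Vw m k)) (i : Fin M) (y : Fin M → N')
    (p : (Fin k → Fin m) × (Fin k → Fin m)) :
    HasSol c d (setI (emb c t K)
      (Function.update (stS sn y i) i ((spos p : Finset (Vw m k)) : Set (Vw m k)))) := by
  rw [hasSol_iff hc hK ht htd hf]
  refine ⟨i, p.1, p.2, ?_, ?_, ?_⟩
  · rw [Function.update_self]
    exact Finset.mem_coe.mpr ((mem_spos0 p _).mpr rfl)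
  · rw [Function.update_self]
    exact Finset.mem_coe.mpr ((mem_spos1 p _).mpr rfl)
  · rw [Function.update_self]
    exact Finset.mem_coe.mpr ((mem_spos2 p _).mpr rfl)

lemma hasSol_no (hc : ∀ i, c i ≠ 0) (hK : Large c t d K) (ht : ∀ i j, i ≠ j → t i ≠ t j)
    (htd : ∑ i, c i * t i = d)
    (hf : ∀ f : Fin 3 → Fin 3, ∑ i, c i * t (f i) = d → push c f = c)
    {Q : ℕ} [Fact Q.Prime] (y : Fin M → (Fin k → ZMod Q)) (i : ℕ) :
    ¬ HasSol c d (setI (emb c t K)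
      (stS (fun α : Fin k → ZMod Q => (sneg α : Finset (Vw m k))) y i)) := by
  rw [hasSol_iff hc hK ht htd hf]
  rintro ⟨j, a, b, h0, h1, h2⟩
  by_cases hj : j.val < i
  · simp only [stS, if_pos hj] at h0 h1 h2
    exact sneg_free (y j) a b (Finset.mem_coe.mp h0) (Finset.mem_coe.mp h1) (Finset.mem_coe.mp h2)
  · simp only [stS, if_neg hj] at h0
    exact h0

end yn

open Classical in
/-- The main theorem. -/
theorem ldt_hard (c : Fin 3 → ℤ) (d : ℤ) (hc : ∀ i, c i ≠ 0)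
    (hsol : ∃ x : Fin 3 → ℤ, ∑ i, c i * x i = d) (hnd : d ≠ 0 ∨ ∑ i, c i ≠ 0)
    (g t b : ℝ) (hg : 0 ≤ g) (ht : 0 ≤ t) (hb : 0 < b) (htg : t + 2 * g < 2) :
    ∃ a : ℝ, 0 < a ∧ ∃ n0 : ℕ, ∀ n : ℕ, n0 ≤ n →
      ∃ (Λ : Type) (_ : Fintype Λ) (_ : Nonempty Λ) (yes no : Λ → Finset ℤ),
        (∀ l, (yes l).card ≤ n ∧ (∀ z ∈ yes l, |(z : ℝ)| ≤ (n : ℝ) ^ (1 + g + b)) ∧
          HasSol c d (yes l)) ∧
        (∀ l, (no l).card ≤ n ∧ (∀ z ∈ no l, |(z : ℝ)| ≤ (n : ℝ) ^ (1 + g + b)) ∧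
          ¬ HasSol c d (no l)) ∧
        ∀ (s : ℕ) (T : Finset (Fin s)) (w : Fin s → ℕ) (ar : ∀ i, Fin (w i) → ℤ ⊕ Fin s)
          (op : ∀ i, (Fin (w i) → ℝ) → ℝ) (θ : ∀ i, Fin (w i) → ℝ)
          (val : (ℤ → Bool) → Fin s → ℝ) (o : Fin s) (τ : ℝ),
          (∀ i j k, ar i j = Sum.inr k → k < i) → (∀ i ∉ T, w i ≤ 2 ∧ Monotone (op i)) →
          (∀ i ∈ T, ∀ z z' : Fin (w i) → ℝ, (∀ j, θ i j ≤ z j ↔ θ i j ≤ z' j) →
            op i z = op i z') →
          (∀ x i, val x i = op i (fun j => Sum.elim (bit x) (val x) (ar i j))) →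
          ((s + ∑ i ∈ T, w i : ℕ) : ℝ) ≤ (n : ℝ) ^ t →
          ((∏ i ∈ T, (w i + 1) : ℕ) : ℝ) ≤ (n : ℝ) ^ g →
          ((univ.filter (fun l : Λ => τ ≤ val (fun z => decide (z ∈ yes l)) o)).card : ℝ) /
              Fintype.card Λ ≤
            ((univ.filter (fun l : Λ => τ ≤ val (fun z => decide (z ∈ no l)) o)).card : ℝ) /
              Fintype.card Λ + (n : ℝ) ^ (-a) := by
  obtain ⟨tg, htne, htd, hf⟩ := exists_tags c d hc hsol hnd
  obtain ⟨K, hK⟩ := exists_large c tg d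
  obtain ⟨B, hB⟩ := emb_le c tg K
  obtain ⟨h, hpar⟩ := params g t (b / 2) hg ht (by linarith) htg
  obtain ⟨C0, Q, hQ, hC0, hblk⟩ := block_hard h
  obtain ⟨a, ha, n0, hn0⟩ := hpar C0
  obtain ⟨n1, hn1⟩ := big_eventually (B + B) (b / 2) (by linarith)
  refine ⟨a, ha, n0 + n1 + 1, fun n hn => ?_⟩
  obtain ⟨κ, M, hM, hcard, hrange, herr⟩ := hn0 n (by omega)
  obtain ⟨k, hk⟩ : ∃ k, k = (4 * h + 10) * κ := ⟨_, rfl⟩
  rw [← hk] at hcard hrange herr
  let P : Type := (Fin k → Fin (2 ^ h)) × (Fin k → Fin (2 ^ h))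
  let N : Type := Fin k → ZMod Q
  haveI : NeZero Q := ⟨hQ.out.pos.ne'⟩
  haveI : Nonempty (Fin (2 ^ h)) := ⟨⟨0, by positivity⟩⟩
  haveI : Nonempty P := inferInstance
  haveI : Nonempty N := ⟨fun _ => 0⟩
  haveI : Nonempty (Fin M) := ⟨⟨0, hM⟩⟩
  let sp : P → Finset (Vw (2 ^ h) k) := spos
  let sn : N → Finset (Vw (2 ^ h) k) := fun α => sneg α
  let ι : Fin M × Vw (2 ^ h) k → ℤ := emb c tg K
  have hι : Function.Injective ι := emb_inj hc hK htne
  have hnR : (1 : ℝ) ≤ n := by exact_mod_cast (by omega : 1 ≤ n)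
  have hn0R : (0 : ℝ) < n := by linarith
  have hrg : ∀ y : Fin M → Set (Vw (2 ^ h) k), ∀ z ∈ setI ι y,
      |(z : ℝ)| ≤ (n : ℝ) ^ (1 + g + b) := by
    intro y z hz
    obtain ⟨q, -, rfl⟩ := (mem_setI ι y z).mp hz
    have h1 : |((ι q : ℤ) : ℝ)| ≤ B * (9 * (Pool.Agent.H560R2.hb (2 ^ h) k M : ℝ)) + B := by
      exact_mod_cast hB (2 ^ h) k M q
    have h2 : (9 * (Pool.Agent.H560R2.hb (2 ^ h) k M : ℝ)) ≤ (n : ℝ) ^ (1 + g + b / 2) := by
      refine le_trans (le_of_eq ?_) hrange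
      unfold Pool.Agent.H560R2.hb
      push_cast
      ring
    have h3 : (1 : ℝ) ≤ (n : ℝ) ^ (1 + g + b / 2) := Real.one_le_rpow hnR (by linarith)
    have h4 : ((B : ℝ) + B) ≤ (n : ℝ) ^ (b / 2) := hn1 n (by omega)
    have hB0 : (0 : ℝ) ≤ B := Nat.cast_nonneg _
    calc |((ι q : ℤ) : ℝ)| ≤ B * (9 * (Pool.Agent.H560R2.hb (2 ^ h) k M : ℝ)) + B := h1
      _ ≤ B * (n : ℝ) ^ (1 + g + b / 2) + B * (n : ℝ) ^ (1 + g + b / 2) :=
          add_le_add (mul_le_mul_of_nonneg_left h2 hB0) (le_mul_of_one_le_right hB0 h3)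
      _ = (B + B) * (n : ℝ) ^ (1 + g + b / 2) := by ring
      _ ≤ (n : ℝ) ^ (b / 2) * (n : ℝ) ^ (1 + g + b / 2) :=
          mul_le_mul_of_nonneg_right h4 (by linarith)
      _ = (n : ℝ) ^ (1 + g + b) := by
          rw [← Real.rpow_add hn0R]
          congr 1
          ring
  refine ⟨Fin M × (Fin M → N) × P, inferInstance, inferInstance,
    fun l => setI ι (Function.update (stS sn l.2.1 l.1) l.1 (sp l.2.2 : Set _)),
    fun l => setI ι (stS sn l.2.1 (l.1 + 1)), ?_, ?_, ?_⟩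
  · intro l
    exact ⟨(setI_card ι _).trans hcard, hrg _, hasSol_yes hc hK htne htd hf sn l.1 l.2.1 l.2.2⟩
  · intro l
    exact ⟨(setI_card ι _).trans hcard, hrg _, hasSol_no hc hK htne htd hf l.2.1 _⟩
  · intro s T w ar op θ val o τ htop hmon hT hval hsize hfree
    have hbits : ∀ y : Fin M → Set (Vw (2 ^ h) k),
        (fun z : ℤ => decide (z ∈ setI ι y)) = Es (locI ι) y := by
      intro y
      funext z
      have h1 := setI_bits hι y z
      by_cases hz : z ∈ setI ι y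
      · rw [decide_eq_true hz, h1.mp hz]
      · rw [decide_eq_false hz]
        have : ¬ Es (locI ι) y z = true := fun h' => hz (h1.mpr h')
        rw [Bool.not_eq_true] at this
        rw [this]
    have hBH : BlockHard (s + ∑ i ∈ T, w i)
        (blkerr h C0 (2 ^ k) ((s + ∑ i ∈ T, w i : ℕ) : ℝ)) sp sn := by
      intro B' hB' L hL hlen g' hg' τ'
      have h1 := hblk κ k hk B' hB' L hL g' hg' τ'
      refine h1.trans ?_
      apply add_le_add_right
      have hlenR : (L.length : ℝ) ≤ ((s + ∑ i ∈ T, w i : ℕ) : ℝ) := by exact_mod_cast hlen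
      unfold blkerr
      push_cast at hlenR ⊢
      gcongr
    have h2 := avg_chain (V := Vw (2 ^ h) k) hBH hM (locI ι) htop hmon hT hval le_rfl o τ
    simp only [hbits]
    refine le_trans h2 ?_
    rw [add_assoc]
    apply add_le_add_right
    refine le_trans ?_ herr
    apply add_le_add
    · exact div_le_div_of_nonneg_right hfree (Nat.cast_nonneg _)
    · unfold blkerr
      gcongr

end Pool.Agent.L0h78.LDT
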